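import Pool.Agent.W541.DL.Stm

namespace Pool.Agent.W702.DL.LINES

open Pool.Agent.W541.DL MeasureTheory ProbabilityTheory Filter Topology

lemma comap_pi {Ω ι : Type} (X : ι → Ω → ℝ) :
    MeasurableSpace.comap (fun ω (q : ι) => X q ω) MeasurableSpace.pi =
      ⨆ q : ι, MeasurableSpace.comap (X q) inferInstance := by
  rw [MeasurableSpace.pi, MeasurableSpace.comap_iSup]
  congr 1
  funext q
  rw [MeasurableSpace.comap_comp]
  rfl

theorem main : S_LINES := by
  intro Ω mΩ P W j h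
  have hG := h.gauss
  have hP := hG.isProbabilityMeasure
  have key : IndepFun (fun ω (q : {q : ℕ × ℝ // q.1 < j}) => W q.1.1 q.1.2 ω)
      (fun ω (q : {q : ℕ × ℝ // j ≤ q.1}) => W q.1.1 q.1.2 ω) P := by
    refine IsGaussianProcess.indepFun_of_covariance_eq_zero
      (X := fun (q : {q : ℕ × ℝ // q.1 < j}) => W q.1.1 q.1.2)
      (Y := fun (q : {q : ℕ × ℝ // j ≤ q.1}) => W q.1.1 q.1.2) ?_ ?_ ?_ ?_
    · have := hG.comp_right (Sum.elim (fun (q : {q : ℕ × ℝ // q.1 < j}) => q.1)
        (fun (q : {q : ℕ × ℝ // j ≤ q.1}) => q.1))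
      have e : (Sum.elim (fun (q : {q : ℕ × ℝ // q.1 < j}) => W q.1.1 q.1.2)
          (fun (q : {q : ℕ × ℝ // j ≤ q.1}) => W q.1.1 q.1.2)) =
          ((fun (p : ℕ × ℝ) (ω : Ω) => W p.1 p.2 ω) ∘
            Sum.elim (fun (q : {q : ℕ × ℝ // q.1 < j}) => q.1)
              (fun (q : {q : ℕ × ℝ // j ≤ q.1}) => q.1)) := by
        funext z
        cases z <;> rfl
      rw [e]
      exact this
    · exact fun s => (h.meas _ _).aemeasurable
    · exact fun s => (h.meas _ _).aemeasurable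
    · intro s t
      have h1 : MemLp (W s.1.1 s.1.2) 2 P := (hG.hasGaussianLaw_eval s.1).memLp_two
      have h2 : MemLp (W t.1.1 t.1.2) 2 P := (hG.hasGaussianLaw_eval t.1).memLp_two
      rw [covariance_eq_sub h1 h2]
      have h3 := h.cov s.1.1 t.1.1 s.1.2 t.1.2
      have hne : s.1.1 ≠ t.1.1 := by
        have a1 := s.2
        have a2 := t.2
        omega
      rw [if_neg hne] at h3
      have h4 : P[W s.1.1 s.1.2 * W t.1.1 t.1.2] = 0 := by
        simpa using h3
      rw [h4, h.mean, h.mean]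
      simp
  rw [IndepFun_iff_Indep] at key
  rw [comap_pi, comap_pi] at key
  exact key

end Pool.Agent.W702.DL.LINES
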